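import Pool.Agent.Helper7.PX.Goals2

/-!
# Packet PX-FB: isolated primes in prescribed blocks

`theorem fb : StmtCB → StmtFB`.
-/

set_option autoImplicit false

open Finset Filter Topology

open scoped Classical

namespace Pool.Agent.Helper91.PX

open Pool.Agent.Helper88.PP (QQ)
open Pool.Agent.Helper88.GM (NI XI)
open Pool.Agent.Helper7.PX

/-- summing over the classes -/
lemma classes (u v Q : ℕ) (BB : Finset ℕ) (G : ℕ → Prop) [DecidablePred G] (δ : ℝ)
    (h : ∀ b ∈ BB, δ ≤ (((NI u v Q b).filter G).card : ℝ)) :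
    (BB.card : ℝ) * δ ≤ (((Ioc u v).filter G).card : ℝ) := by
  have h1 : (BB.card : ℝ) * δ ≤ ∑ b ∈ BB, (((NI u v Q b).filter G).card : ℝ) := by
    rw [← nsmul_eq_mul]
    exact Finset.card_nsmul_le_sum BB _ δ h
  have h2 : ∑ b ∈ BB, ((NI u v Q b).filter G).card ≤ ((Ioc u v).filter G).card := by
    rw [← Finset.card_biUnion]
    · apply card_le_card
      intro n hn
      simp only [mem_biUnion, mem_filter, NI] at hn ⊢
      obtain ⟨b, _, ⟨hn1, _⟩, hG⟩ := hn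
      exact ⟨hn1, hG⟩
    · intro b _ b' _ hbb'
      rw [Function.onFun, Finset.disjoint_left]
      intro n hn hn'
      simp only [mem_filter, NI] at hn hn'
      exact hbb' (hn.1.2.symm.trans hn'.1.2)
  calc (BB.card : ℝ) * δ ≤ ∑ b ∈ BB, (((NI u v Q b).filter G).card : ℝ) := h1
    _ = ((∑ b ∈ BB, ((NI u v Q b).filter G).card : ℕ) : ℝ) := by push_cast; rfl
    _ ≤ _ := by exact_mod_cast h2

/-- pairs of primes in two blocks -/
lemma np_mul (n h h' l : ℕ) (hd : h < h' → h + l ≤ h') (hd' : h' < h → h' + l ≤ h) :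
    np n h l * np n h' l ≤ np2 n h h' l + (if h = h' then np n h l else 0) := by
  unfold np np2
  set S := (Ioc h (h + l)).filter (fun j => (n + j).Prime) with hS
  set S' := (Ioc h' (h' + l)).filter (fun j => (n + j).Prime) with hS'
  rw [← card_product, ← card_filter_add_card_filter_not (s := S ×ˢ S') (fun p => p.1 ≠ p.2)]
  apply add_le_add
  · apply card_le_card
    intro p hp
    simp only [hS, hS', mem_filter, mem_product] at hp ⊢
    exact ⟨⟨hp.1.1.1, hp.1.2.1⟩, hp.2, hp.1.1.2, hp.1.2.2⟩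
  · split_ifs with hh
    · apply card_le_card_of_injOn (fun p : ℕ × ℕ => p.1)
      · intro p hp
        simp only [coe_filter, mem_product, Set.mem_ofPred_eq] at hp
        exact hp.1.1
      · intro p hp p' hp' hpp
        simp only [coe_filter, mem_product, Set.mem_ofPred_eq, ne_eq, not_not] at hp hp' hpp
        exact Prod.ext hpp (by rw [← hp.2, ← hp'.2]; exact hpp)
    · rw [Nat.le_zero, card_eq_zero, filter_eq_empty_iff]
      intro p hp
      simp only [hS, hS', mem_filter, mem_product, mem_Ioc] at hp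
      intro hne
      have hne' : p.1 = p.2 := by simpa using hne
      rcases Nat.lt_or_gt_of_ne hh with h1 | h1
      · have := hd h1; omega
      · have := hd' h1; omega

/-- two primes in a block give a pair -/
lemma np_le_one (n h l : ℕ) (h2 : np2 n h h l < 2) : np n h l ≤ 1 := by
  have := np_mul n h h l (fun h => absurd h (lt_irrefl _)) (fun h => absurd h (lt_irrefl _))
  rw [if_pos rfl] at this
  by_contra hcon
  have h3 : 2 ≤ np n h l := by omega
  nlinarith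

/-- the number of pairs of primes in the blocks -/
lemma sum_pairs (n l : ℕ) (H : Finset ℕ) (hd : ∀ h ∈ H, ∀ h' ∈ H, h < h' → h + l ≤ h') :
    ((∑ h ∈ H, np n h l : ℕ) : ℝ) * (((∑ h ∈ H, np n h l : ℕ) : ℝ) - 1)
      ≤ ∑ h ∈ H, ∑ h' ∈ H, (np2 n h h' l : ℝ) := by
  have h1 : (∑ h ∈ H, np n h l) * (∑ h ∈ H, np n h l)
      ≤ ∑ h ∈ H, ∑ h' ∈ H, np2 n h h' l + ∑ h ∈ H, np n h l := by
    calc (∑ h ∈ H, np n h l) * (∑ h ∈ H, np n h l)
        = ∑ h ∈ H, ∑ h' ∈ H, np n h l * np n h' l := by rw [sum_mul_sum]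
      _ ≤ ∑ h ∈ H, ∑ h' ∈ H, (np2 n h h' l + (if h = h' then np n h l else 0)) := by
          apply sum_le_sum
          intro h hh
          apply sum_le_sum
          intro h' hh'
          exact np_mul n h h' l (hd h hh h' hh') (hd h' hh' h hh)
      _ = _ := by
          simp only [sum_add_distrib]
          congr 1
          apply sum_congr rfl
          intro h hh
          rw [sum_ite_eq, if_pos hh]
  have h2 : ((∑ h ∈ H, np n h l : ℕ) : ℝ) * ((∑ h ∈ H, np n h l : ℕ) : ℝ)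
      ≤ ((∑ h ∈ H, ∑ h' ∈ H, np2 n h h' l : ℕ) : ℝ) + ((∑ h ∈ H, np n h l : ℕ) : ℝ) := by
    exact_mod_cast h1
  have h3 : ((∑ h ∈ H, ∑ h' ∈ H, np2 n h h' l : ℕ) : ℝ)
      = ∑ h ∈ H, ∑ h' ∈ H, (np2 n h h' l : ℝ) := by push_cast; rfl
  rw [← h3]
  linarith

/-- the pointwise inequality of the second moment method -/
lemma point (N k : ℕ) (A V : ℝ) (hA : 1 ≤ A) (hV : (N : ℝ) * ((N : ℝ) - 1) ≤ V) :
    ((N : ℝ) - ((k : ℝ) + 1) - V / A) / A ≤ if k + 1 ≤ N then (1 : ℝ) else 0 := by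
  have hA0 : 0 < A := by linarith
  have hVA : (N : ℝ) * ((N : ℝ) - 1) / A ≤ V / A := by gcongr
  have hk : (0 : ℝ) ≤ (k : ℝ) := Nat.cast_nonneg k
  split_ifs with h
  · rw [div_le_one hA0]
    have h1 : (N : ℝ) - (N : ℝ) * ((N : ℝ) - 1) / A ≤ A := by
      have h2 : (N : ℝ) * ((N : ℝ) - 1) / A = ((N : ℝ) ^ 2 - N) / A := by ring
      have h3 : (N : ℝ) - A ≤ ((N : ℝ) ^ 2 - N) / A := by
        rw [le_div_iff₀ hA0]
        nlinarith [sq_nonneg ((N : ℝ) - (A + 1) / 2)]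
      rw [h2]; linarith
    linarith
  · have h1 : (N : ℝ) ≤ k := by
      have : N ≤ k := by omega
      exact_mod_cast this
    have h2 : (0 : ℝ) ≤ (N : ℝ) * ((N : ℝ) - 1) := by
      rcases Nat.eq_zero_or_pos N with h0 | h0
      · simp [h0]
      · have : (1 : ℝ) ≤ N := by exact_mod_cast h0
        nlinarith
    have h3 : 0 ≤ (N : ℝ) * ((N : ℝ) - 1) / A := by positivity
    apply div_nonpos_of_nonpos_of_nonneg _ hA0.le
    linarith

/-- the second moment method -/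
lemma core (S : Finset ℕ) (w : ℕ → ℝ) (D a C1 : ℝ) (k : ℕ) (N : ℕ → ℕ) (V T : ℕ → ℝ)
    (ha0 : 0 < a) (ha1 : a ≤ 1) (hC1 : 1 ≤ C1) (hD : 0 < D) (hw : ∀ n, 0 ≤ w n)
    (hw1 : ∑ n ∈ S, w n ≤ 2 * D) (hV : ∀ n, (N n : ℝ) * ((N n : ℝ) - 1) ≤ V n)
    (hN1 : 8 * ((k : ℝ) + 1) * D ≤ ∑ n ∈ S, w n * (N n : ℝ))
    (hV1 : ∑ n ∈ S, w n * V n ≤ C1 * (8 * ((k : ℝ) + 1) / a) ^ 2 * D)
    (hT1 : ∑ n ∈ S, w n * T n ≤ a ^ 2 / (64 * C1) * D) :
    a ^ 2 / (64 * C1) * D
      ≤ ∑ n ∈ S, w n * ((if k + 1 ≤ N n then (1 : ℝ) else 0) - T n / 2) := by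
  have hk0 : (0 : ℝ) < (k : ℝ) + 1 := by positivity
  have hk1 : (1 : ℝ) ≤ (k : ℝ) + 1 := by
    have : (0 : ℝ) ≤ k := Nat.cast_nonneg k
    linarith
  have hC10 : 0 < C1 := by linarith
  set R : ℝ := 8 * ((k : ℝ) + 1) / a with hR
  have hR8 : 8 ≤ R := by
    rw [hR, le_div_iff₀ ha0]; nlinarith
  have haR : a * R = 8 * ((k : ℝ) + 1) := by rw [hR]; field_simp
  set A : ℝ := 8 * C1 * R / a with hA
  have hA1 : 1 ≤ A := by
    rw [hA, le_div_iff₀ ha0]; nlinarith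
  have hA0 : 0 < A := by linarith
  have hAa : C1 * R ^ 2 / A = (k : ℝ) + 1 := by
    have hR0 : 0 < R := by linarith
    rw [hA, div_div_eq_mul_div, div_eq_iff (by positivity)]
    have : C1 * R ^ 2 * a = C1 * R * (a * R) := by ring
    rw [this, haR]; ring
  have hkA : ((k : ℝ) + 1) / A = a ^ 2 / (64 * C1) := by
    rw [hA, hR]; field_simp; ring
  set c2 : ℝ := a ^ 2 / (64 * C1) with hc2
  have h1 : ∑ n ∈ S, w n * (((N n : ℝ) - ((k : ℝ) + 1) - V n / A) / A)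
      ≤ ∑ n ∈ S, w n * (if k + 1 ≤ N n then (1 : ℝ) else 0) := by
    apply sum_le_sum
    intro n _
    exact mul_le_mul_of_nonneg_left (point (N n) k A (V n) hA1 (hV n)) (hw n)
  have h2 : ∑ n ∈ S, w n * (((N n : ℝ) - ((k : ℝ) + 1) - V n / A) / A)
      = (∑ n ∈ S, w n * (N n : ℝ) - ((k : ℝ) + 1) * ∑ n ∈ S, w n
        - (∑ n ∈ S, w n * V n) / A) / A := by
    rw [mul_sum, sum_div, ← sum_sub_distrib, ← sum_sub_distrib, sum_div]
    apply sum_congr rfl
    intro n _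
    ring
  have h3 : (∑ n ∈ S, w n * V n) / A ≤ ((k : ℝ) + 1) * D := by
    calc (∑ n ∈ S, w n * V n) / A ≤ (C1 * R ^ 2 * D) / A := by gcongr
      _ = (C1 * R ^ 2 / A) * D := by ring
      _ = _ := by rw [hAa]
  have h4 : ((k : ℝ) + 1) * ∑ n ∈ S, w n ≤ ((k : ℝ) + 1) * (2 * D) := by gcongr
  have h5 : 5 * (((k : ℝ) + 1) * D) / A ≤ (∑ n ∈ S, w n * (N n : ℝ) - ((k : ℝ) + 1) * ∑ n ∈ S, w n
        - (∑ n ∈ S, w n * V n) / A) / A := by
    apply div_le_div_of_nonneg_right _ hA0.le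
    nlinarith
  have h6 : 5 * (((k : ℝ) + 1) * D) / A = 5 * (c2 * D) := by
    rw [← hkA]; ring
  have h7 : ∑ n ∈ S, w n * ((if k + 1 ≤ N n then (1 : ℝ) else 0) - T n / 2)
      = ∑ n ∈ S, w n * (if k + 1 ≤ N n then (1 : ℝ) else 0) - (∑ n ∈ S, w n * T n) / 2 := by
    rw [sum_div, ← sum_sub_distrib]
    apply sum_congr rfl
    intro n _
    ring
  have hc20 : 0 < c2 := by positivity
  have h8 : 0 < c2 * D := by positivity
  rw [h7]
  rw [h6] at h5
  rw [h2] at h1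
  linarith

/-- consequences for the window -/
lemma window (x n : ℕ) (lam ε : ℝ) (H H' : Finset ℕ) (l k : ℕ) (hlx : 0 ≤ ε * Real.log x)
    (hH' : H' ⊆ H)
    (hl : l ≤ ⌊ε * Real.log x⌋₊)
    (hw : ∀ h ∈ H, (h : ℝ) + ε * Real.log x ≤ lam * Real.log x)
    (hd : ∀ h ∈ H, ∀ h' ∈ H, h < h' → (h : ℝ) + ε * Real.log x ≤ h')
    (hN : k + 1 ≤ ∑ h ∈ H', np n h l) (h1 : ∀ h ∈ H', np n h l ≤ 1)
    (hp : ∀ j ∈ Icc 1 ⌊lam * Real.log x⌋₊, (n + j).Prime → ∃ h ∈ H', j ∈ Ioc h (h + l)) :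
    Wd x n lam H ⌊ε * Real.log x⌋₊ ∧ (∀ h ∈ H, np n h ⌊ε * Real.log x⌋₊ ≤ 1) ∧
    k + 1 ≤ ∑ h ∈ H, np n h ⌊ε * Real.log x⌋₊ := by
  set L := ⌊ε * Real.log x⌋₊ with hL
  have hLe : (L : ℝ) ≤ ε * Real.log x := Nat.floor_le hlx
  refine ⟨?_, ?_, ?_⟩
  · intro j hj hjp
    obtain ⟨h, hh, hjh⟩ := hp j hj hjp
    refine ⟨h, hH' hh, ?_⟩
    rw [mem_Ioc] at hjh ⊢
    exact ⟨hjh.1, by omega⟩
  · intro h hh
    have key : ∀ j ∈ Ioc h (h + L), (n + j).Prime → h ∈ H' ∧ j ∈ Ioc h (h + l) := by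
      intro j hj hjp
      rw [mem_Ioc] at hj
      have hj1 : j ∈ Icc 1 ⌊lam * Real.log x⌋₊ := by
        rw [mem_Icc]
        refine ⟨by omega, Nat.le_floor ?_⟩
        have h2 : (j : ℝ) ≤ (h : ℝ) + L := by exact_mod_cast hj.2
        have h3 := hw h hh
        linarith
      obtain ⟨h', hh', hjh'⟩ := hp j hj1 hjp
      rw [mem_Ioc] at hjh'
      have hhh : h' = h := by
        rcases Nat.lt_trichotomy h' h with h4 | h4 | h4
        · exfalso
          have h5 := hd h' (hH' hh') h hh h4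
          have h6 : (j : ℝ) ≤ (h' : ℝ) + l := by exact_mod_cast hjh'.2
          have h7 : (l : ℝ) ≤ L := by exact_mod_cast hl
          have h8 : (h : ℝ) < j := by exact_mod_cast hj.1
          linarith
        · exact h4
        · exfalso
          have h5 := hd h hh h' (hH' hh') h4
          have h6 : (j : ℝ) ≤ (h : ℝ) + L := by exact_mod_cast hj.2
          have h8 : (h' : ℝ) < j := by exact_mod_cast hjh'.1
          linarith
      subst hhh
      exact ⟨hh', mem_Ioc.mpr hjh'⟩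
    by_cases hhH : h ∈ H'
    · refine le_trans (card_le_card ?_) (h1 h hhH)
      intro j hj
      rw [mem_filter] at hj ⊢
      exact ⟨(key j hj.1 hj.2).2, hj.2⟩
    · have : np n h L = 0 := by
        unfold np
        rw [card_eq_zero, filter_eq_empty_iff]
        intro j hj hjp
        exact hhH (key j hj hjp).1
      omega
  · refine hN.trans ?_
    calc ∑ h ∈ H', np n h l ≤ ∑ h ∈ H', np n h L := by
          apply sum_le_sum
          intro h _
          apply card_le_card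
          intro j hj
          rw [mem_filter, mem_Ioc] at hj ⊢
          exact ⟨⟨hj.1.1, by omega⟩, hj.2⟩
      _ ≤ ∑ h ∈ H, np n h L := sum_le_sum_of_subset hH'

/-- `x` is large -/
lemma large (e : ℝ) (he : 0 < e) : ∃ x2 : ℕ, ∀ x : ℕ, x2 ≤ x →
    1 ≤ e * Real.log x ∧ Real.log (Real.log x) ≤ e * Real.log x := by
  have h1 : Tendsto (fun x : ℕ => Real.log (x : ℝ)) atTop atTop :=
    Real.tendsto_log_atTop.comp tendsto_natCast_atTop_atTop
  have h2 : ∀ᶠ u : ℝ in atTop, 1 ≤ e * u ∧ Real.log u ≤ e * u := by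
    have h3 := Real.isLittleO_log_id_atTop.bound he
    filter_upwards [h3, eventually_ge_atTop (1 / e), eventually_gt_atTop (0 : ℝ)] with u hu hu1 hu0
    refine ⟨?_, ?_⟩
    · rw [div_le_iff₀ he] at hu1; linarith
    · simp only [id, Real.norm_eq_abs] at hu
      rw [abs_of_pos hu0] at hu
      exact (le_abs_self _).trans hu
  have h4 := h1.eventually h2
  rw [eventually_atTop] at h4
  exact h4

theorem fb (hCB : StmtCB) : StmtFB := by
  obtain ⟨κ, c1, C1, c, C', hκ0, hκ1, hc10, hc11, hC1, hc, hC', hCB⟩ := hCB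
  have hC10 : 0 < C1 := by linarith
  obtain ⟨a, ha⟩ : ∃ a : ℝ, a = κ * c1 := ⟨_, rfl⟩
  have ha0 : 0 < a := by rw [ha]; exact mul_pos hκ0 hc10
  have ha1 : a ≤ 1 := by rw [ha]; exact mul_le_one₀ hκ1 hc10.le hc11
  obtain ⟨c2, hc2⟩ : ∃ c2 : ℝ, c2 = a ^ 2 / (64 * C1) := ⟨_, rfl⟩
  have hc20 : 0 < c2 := by rw [hc2]; positivity
  have hc21 : c2 ≤ 1 := by
    rw [hc2, div_le_one (by positivity)]
    nlinarith
  obtain ⟨C2, hC2⟩ : ∃ C2 : ℝ, C2 = 16384 * C1 ^ 2 / a ^ 4 + 1 := ⟨_, rfl⟩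
  have hC20 : 0 < C2 := by rw [hC2]; positivity
  refine ⟨c, C2 + 2 * C', hc, by positivity, ?_⟩
  intro k ε hk hε hε1
  have hk0 : (0 : ℝ) < (k : ℝ) + 1 := by positivity
  obtain ⟨R, hR⟩ : ∃ R : ℝ, R = 8 * ((k : ℝ) + 1) / a := ⟨_, rfl⟩
  have hR0 : 0 < R := by rw [hR]; positivity
  have haR : a * R = 8 * ((k : ℝ) + 1) := by rw [hR]; field_simp
  obtain ⟨M, hM⟩ : ∃ M : ℕ, M = ⌈C1 * R ^ 2 / c2⌉₊ := ⟨_, rfl⟩
  have hM1 : C1 * R ^ 2 / c2 ≤ M := by rw [hM]; exact Nat.le_ceil _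
  have hM0 : 0 < M := by rw [hM]; exact Nat.ceil_pos.mpr (by positivity)
  have hM0' : (0 : ℝ) < M := by exact_mod_cast hM0
  have hMC : (M : ℝ) ≤ C2 * (k : ℝ) ^ 2 := by
    have h1 : (M : ℝ) < C1 * R ^ 2 / c2 + 1 := by
      rw [hM]; exact Nat.ceil_lt_add_one (by positivity)
    have h2 : C1 * R ^ 2 / c2 = 4096 * C1 ^ 2 / a ^ 4 * ((k : ℝ) + 1) ^ 2 := by
      rw [hR, hc2]; field_simp; ring
    have hk1 : (1 : ℝ) ≤ k := by exact_mod_cast hk
    have h3 : ((k : ℝ) + 1) ^ 2 ≤ 4 * (k : ℝ) ^ 2 := by nlinarith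
    have h4 : (1 : ℝ) ≤ (k : ℝ) ^ 2 := by nlinarith
    calc (M : ℝ) ≤ 4096 * C1 ^ 2 / a ^ 4 * ((k : ℝ) + 1) ^ 2 + 1 := by rw [← h2]; exact h1.le
      _ ≤ 4096 * C1 ^ 2 / a ^ 4 * (4 * (k : ℝ) ^ 2) + (k : ℝ) ^ 2 := by gcongr
      _ = C2 * (k : ℝ) ^ 2 := by rw [hC2]; ring
  obtain ⟨e, he⟩ : ∃ e : ℝ, e = min (ε / 2) (R / (4 * M)) := ⟨_, rfl⟩
  have he0 : 0 < e := by rw [he]; exact lt_min (by positivity) (by positivity)
  have heε : e ≤ ε / 2 := by rw [he]; exact min_le_left _ _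
  have heR : e ≤ R / (4 * M) := by rw [he]; exact min_le_right _ _
  have he12 : e ≤ 1 / 2 := by linarith
  obtain ⟨t, ht⟩ : ∃ t : ℝ, t = √(R / (M * e)) - 1 := ⟨_, rfl⟩
  have ht1 : 1 ≤ t := by
    have : (2 : ℝ) ≤ √(R / (M * e)) := by
      rw [Real.le_sqrt' (by norm_num), le_div_iff₀ (by positivity)]
      rw [le_div_iff₀ (by positivity)] at heR
      nlinarith
    linarith
  have hte : (1 + t) ^ 2 * e = R / M := by
    have : 1 + t = √(R / (M * e)) := by rw [ht]; ring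
    rw [this, Real.sq_sqrt (by positivity)]
    field_simp
  obtain ⟨lam1, x1, hCB⟩ := hCB t c2 e M ht1 hc20 he0 he12
  obtain ⟨x2, hx2⟩ := large e he0
  refine ⟨max lam1 (Real.log (2 / κ) / C'), max (max x1 x2) 1, ?_⟩
  intro x hx lam hlam hlamc H hH hHw hHd
  have hxx1 : x1 ≤ x := by omega
  have hxx2 : x2 ≤ x := by omega
  have hx0 : 1 ≤ x := by omega
  have hlam1 : lam1 ≤ lam := (le_max_left _ _).trans hlam
  have hlam2 : Real.log (2 / κ) / C' ≤ lam := (le_max_right _ _).trans hlam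
  obtain ⟨hx3, hx4⟩ := hx2 x hxx2
  have hMH : M ≤ H.card := by
    have h1 : (M : ℝ) ≤ (H.card : ℝ) := by
      refine hMC.trans (le_trans ?_ hH)
      gcongr
      linarith
    exact_mod_cast h1
  obtain ⟨H0, hH0, hH0c⟩ := Finset.exists_subset_card_eq hMH
  obtain ⟨l, hl⟩ : ∃ l : ℕ, l = ⌈e * Real.log x⌉₊ := ⟨_, rfl⟩
  have hlog0 : 0 ≤ Real.log x := by
    by_contra hcon
    push Not at hcon
    nlinarith
  have hl1 : e * Real.log x ≤ l := by rw [hl]; exact Nat.le_ceil _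
  have hl2' : (l : ℝ) ≤ e * Real.log x + 1 := by
    rw [hl]; exact (Nat.ceil_lt_add_one (by positivity)).le
  have hl2 : (l : ℝ) ≤ 2 * e * Real.log x := by linarith
  have hlε : (l : ℝ) ≤ ε * Real.log x := by
    have : 2 * e * Real.log x ≤ ε * Real.log x := by
      apply mul_le_mul_of_nonneg_right _ hlog0
      linarith
    linarith
  have hlL : l ≤ ⌊ε * Real.log x⌋₊ := Nat.le_floor hlε
  have hdl : ⌈Real.log (Real.log x)⌉₊ ≤ l := by rw [hl]; exact Nat.ceil_mono hx4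
  have hHw0 : ∀ h ∈ H0, (h : ℝ) + l ≤ lam * Real.log x := by
    intro h hh
    have := hHw h (hH0 hh)
    linarith
  have hHd0 : ∀ h ∈ H0, ∀ h' ∈ H0, h < h' → h + l ≤ h' := by
    intro h hh h' hh' hlt
    have h1 := hHd h (hH0 hh) h' (hH0 hh') hlt
    have h2 : (h : ℝ) + l ≤ h' := by linarith
    exact_mod_cast h2
  have hne : H0.Nonempty := by
    rw [← card_pos, hH0c]; exact hM0
  obtain ⟨BB, hBB, hBBc, hBBp⟩ := hCB x hxx1 lam hlam1 hlamc H0 l ⌈Real.log (Real.log x)⌉₊ hne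
    hH0c.le hl1 hl2 (Nat.le_ceil _) hdl hHw0 hHd0
  -- a good class
  have hclass : ∀ b ∈ BB, Real.exp (-Real.exp (C' * lam)) * XI (x / 32) x (QQ x)
      ≤ (((NI (x / 32) x (QQ x) b).filter (fun n =>
        Wd x n lam H ⌊ε * Real.log x⌋₊ ∧ (∀ h ∈ H, np n h ⌊ε * Real.log x⌋₊ ≤ 1) ∧
        k + 1 ≤ ∑ h ∈ H, np n h ⌊ε * Real.log x⌋₊)).card : ℝ) := by
    intro b hb
    obtain ⟨H', w, D, hH'0, hH'c, hD, hw0, hw1, hnp, hnp2, _, hΦ⟩ := hBBp b hb
    have hH' : H' ⊆ H := hH'0.trans hH0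
    have hH'M : (H'.card : ℝ) ≤ M := by
      have := card_le_card hH'0
      rw [hH0c] at this
      exact_mod_cast this
    have hκM : κ * M ≤ H'.card := by rw [← hH0c]; exact hH'c
    rw [hte] at hnp hnp2
    have hmain := core (NI (x / 32) x (QQ x) b) w D a C1 k (fun n => ∑ h ∈ H', np n h l)
      (fun n => ∑ h ∈ H', ∑ h' ∈ H', (np2 n h h' l : ℝ))
      (fun n => ∑ h ∈ H', (np2 n h h l : ℝ)) ha0 ha1 hC1 hD hw0 ?_ ?_ ?_ ?_ ?_
    · rw [← hc2] at hmain
      refine (hΦ (fun n => (if k + 1 ≤ ∑ h ∈ H', np n h l then (1 : ℝ) else 0)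
        - (∑ h ∈ H', (np2 n h h l : ℝ)) / 2) ?_ hmain).trans ?_
      · intro n
        have h1 : 0 ≤ (∑ h ∈ H', (np2 n h h l : ℝ)) / 2 := by positivity
        have h2 : (if k + 1 ≤ ∑ h ∈ H', np n h l then (1 : ℝ) else 0) ≤ 1 := by
          split_ifs <;> norm_num
        show (if k + 1 ≤ ∑ h ∈ H', np n h l then (1 : ℝ) else 0)
          - (∑ h ∈ H', (np2 n h h l : ℝ)) / 2 ≤ 1
        linarith
      · have hsub : (NI (x / 32) x (QQ x) b).filter (fun n =>
            0 < (if k + 1 ≤ ∑ h ∈ H', np n h l then (1 : ℝ) else 0)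
              - (∑ h ∈ H', (np2 n h h l : ℝ)) / 2 ∧
            ∀ j ∈ Icc 1 ⌊lam * Real.log x⌋₊, (n + j).Prime → ∃ h ∈ H', j ∈ Ioc h (h + l))
            ⊆ (NI (x / 32) x (QQ x) b).filter (fun n =>
              Wd x n lam H ⌊ε * Real.log x⌋₊ ∧ (∀ h ∈ H, np n h ⌊ε * Real.log x⌋₊ ≤ 1) ∧
              k + 1 ≤ ∑ h ∈ H, np n h ⌊ε * Real.log x⌋₊) := by
          intro n hn
          rw [mem_filter] at hn ⊢
          obtain ⟨hn0, hn1, hn2⟩ := hn
          refine ⟨hn0, ?_⟩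
          have h1 : 0 ≤ (∑ h ∈ H', (np2 n h h l : ℝ)) / 2 := by positivity
          have hN : k + 1 ≤ ∑ h ∈ H', np n h l := by
            by_contra hcon
            rw [if_neg hcon] at hn1
            linarith
          rw [if_pos hN] at hn1
          have hone : ∀ h ∈ H', np n h l ≤ 1 := by
            intro h hh
            apply np_le_one
            have h2 : (np2 n h h l : ℝ) ≤ ∑ h ∈ H', (np2 n h h l : ℝ) :=
              single_le_sum (f := fun h => (np2 n h h l : ℝ)) (fun i _ => by positivity) hh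
            have h3 : (np2 n h h l : ℝ) < 2 := by linarith
            exact_mod_cast h3
          exact window x n lam ε H H' l k (by positivity) hH' hlL hHw hHd hN hone hn2
        exact_mod_cast card_le_card hsub
    · -- total weight
      have : (1 + c2) * D ≤ 2 * D := by gcongr; linarith
      exact hw1.trans this
    · -- pairs
      intro n
      exact sum_pairs n l H' (fun h hh h' hh' => hHd0 h (hH'0 hh) h' (hH'0 hh'))
    · -- first moment
      have h1 : ∑ n ∈ NI (x / 32) x (QQ x) b, w n * ((∑ h ∈ H', np n h l : ℕ) : ℝ)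
          = ∑ h ∈ H', ∑ n ∈ NI (x / 32) x (QQ x) b, w n * (np n h l : ℝ) := by
        rw [sum_comm]
        apply sum_congr rfl
        intro n _
        push_cast
        rw [mul_sum]
      show 8 * ((k : ℝ) + 1) * D
        ≤ ∑ n ∈ NI (x / 32) x (QQ x) b, w n * ((∑ h ∈ H', np n h l : ℕ) : ℝ)
      rw [h1]
      have h2 : (H'.card : ℝ) * (c1 * (R / M) * D)
          ≤ ∑ h ∈ H', ∑ n ∈ NI (x / 32) x (QQ x) b, w n * (np n h l : ℝ) := by
        rw [← nsmul_eq_mul]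
        exact card_nsmul_le_sum H' _ _ hnp
      have h3 : 8 * ((k : ℝ) + 1) * D = (κ * M) * (c1 * (R / M) * D) := by
        rw [← haR, ha]; field_simp
      rw [h3]
      refine le_trans ?_ h2
      gcongr
    · -- second moment
      have h1 : ∑ n ∈ NI (x / 32) x (QQ x) b, w n * (∑ h ∈ H', ∑ h' ∈ H', (np2 n h h' l : ℝ))
          = ∑ h ∈ H', ∑ h' ∈ H', ∑ n ∈ NI (x / 32) x (QQ x) b, w n * (np2 n h h' l : ℝ) := by
        simp_rw [mul_sum]
        rw [sum_comm]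
        apply sum_congr rfl
        intro h _
        rw [sum_comm]
      show ∑ n ∈ NI (x / 32) x (QQ x) b, w n * (∑ h ∈ H', ∑ h' ∈ H', (np2 n h h' l : ℝ))
        ≤ C1 * (8 * ((k : ℝ) + 1) / a) ^ 2 * D
      rw [h1, ← hR]
      have h2 : ∑ h ∈ H', ∑ h' ∈ H', ∑ n ∈ NI (x / 32) x (QQ x) b, w n * (np2 n h h' l : ℝ)
          ≤ (H'.card : ℝ) * ((H'.card : ℝ) * (C1 * (R / M) ^ 2 * D)) := by
        rw [← nsmul_eq_mul, ← nsmul_eq_mul]
        apply sum_le_card_nsmul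
        intro h hh
        apply sum_le_card_nsmul
        intro h' hh'
        exact hnp2 h hh h' hh'
      refine h2.trans ?_
      calc (H'.card : ℝ) * ((H'.card : ℝ) * (C1 * (R / M) ^ 2 * D))
          ≤ (M : ℝ) * ((M : ℝ) * (C1 * (R / M) ^ 2 * D)) := by gcongr
        _ = C1 * R ^ 2 * D := by field_simp
    · -- pairs in one block
      have h1 : ∑ n ∈ NI (x / 32) x (QQ x) b, w n * (∑ h ∈ H', (np2 n h h l : ℝ))
          = ∑ h ∈ H', ∑ n ∈ NI (x / 32) x (QQ x) b, w n * (np2 n h h l : ℝ) := by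
        simp_rw [mul_sum]
        rw [sum_comm]
      show ∑ n ∈ NI (x / 32) x (QQ x) b, w n * (∑ h ∈ H', (np2 n h h l : ℝ))
        ≤ a ^ 2 / (64 * C1) * D
      rw [h1, ← hc2]
      have h2 : ∑ h ∈ H', ∑ n ∈ NI (x / 32) x (QQ x) b, w n * (np2 n h h l : ℝ)
          ≤ (H'.card : ℝ) * (C1 * (R / M) ^ 2 * D) := by
        rw [← nsmul_eq_mul]
        apply sum_le_card_nsmul
        intro h hh
        exact hnp2 h hh h hh
      refine h2.trans ?_
      calc (H'.card : ℝ) * (C1 * (R / M) ^ 2 * D)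
          ≤ (M : ℝ) * (C1 * (R / M) ^ 2 * D) := by gcongr
        _ = C1 * R ^ 2 / M * D := by field_simp
        _ ≤ c2 * D := by
          gcongr
          rw [div_le_iff₀ hM0']
          rw [div_le_iff₀ hc20] at hM1
          linarith
  -- sum over the classes
  have hsum := classes (x / 32) x (QQ x) BB (fun n =>
    Wd x n lam H ⌊ε * Real.log x⌋₊ ∧ (∀ h ∈ H, np n h ⌊ε * Real.log x⌋₊ ≤ 1) ∧
    k + 1 ≤ ∑ h ∈ H, np n h ⌊ε * Real.log x⌋₊) _ hclass
  refine le_trans ?_ hsum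
  have hQ0 : 0 < QQ x := by
    unfold QQ
    exact primorial_pos _
  have hQ0' : (0 : ℝ) < QQ x := by exact_mod_cast hQ0
  have hXI : (x : ℝ) / 2 ≤ XI (x / 32) x (QQ x) * QQ x := by
    unfold XI
    rw [div_mul_cancel₀ _ hQ0'.ne']
    have h1 : x ≤ 2 * (x - x / 32) := by omega
    have h2 : (x : ℝ) ≤ 2 * ((x - x / 32 : ℕ) : ℝ) := by exact_mod_cast h1
    linarith
  have hXI0 : 0 ≤ XI (x / 32) x (QQ x) := by unfold XI; positivity
  have hx0' : (0 : ℝ) < x := by exact_mod_cast hx0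
  have hexp : Real.exp (-Real.exp ((C2 + 2 * C') * lam)) ≤ κ / 2 * Real.exp (-Real.exp (C' * lam)) := by
    have h1 : Real.log (2 / κ) ≤ C' * lam := by
      rw [div_le_iff₀ hC'] at hlam2; linarith
    have h0 : 0 ≤ Real.log (2 / κ) := by
      apply Real.log_nonneg
      rw [le_div_iff₀ hκ0]; linarith
    have hlam0 : 0 ≤ lam := by
      by_contra hcon
      push Not at hcon
      nlinarith
    have h2 : C' * lam + 1 ≤ Real.exp (C' * lam) := Real.add_one_le_exp _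
    have h3 : Real.exp (2 * (C' * lam)) ≤ Real.exp ((C2 + 2 * C') * lam) := by
      apply Real.exp_le_exp.mpr
      nlinarith [mul_nonneg hC20.le hlam0]
    have h4 : Real.exp (2 * (C' * lam)) = Real.exp (C' * lam) ^ 2 := by
      rw [← Real.exp_nat_mul]; norm_num
    have h5 : Real.exp (C' * lam) + Real.log (2 / κ) ≤ Real.exp ((C2 + 2 * C') * lam) := by
      rw [h4] at h3
      nlinarith
    have h6 : κ / 2 = Real.exp (-Real.log (2 / κ)) := by
      rw [Real.exp_neg, Real.exp_log (by positivity)]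
      field_simp
    rw [h6, ← Real.exp_add]
    apply Real.exp_le_exp.mpr
    linarith
  calc (x : ℝ) * Real.exp (-Real.exp ((C2 + 2 * C') * lam))
      ≤ x * (κ / 2 * Real.exp (-Real.exp (C' * lam))) := by gcongr
    _ = κ * Real.exp (-Real.exp (C' * lam)) * (x / 2) := by ring
    _ ≤ κ * Real.exp (-Real.exp (C' * lam)) * (XI (x / 32) x (QQ x) * QQ x) := by gcongr
    _ = (κ * QQ x) * (Real.exp (-Real.exp (C' * lam)) * XI (x / 32) x (QQ x)) := by ring
    _ ≤ (BB.card : ℝ) * (Real.exp (-Real.exp (C' * lam)) * XI (x / 32) x (QQ x)) := by gcongr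

end Pool.Agent.Helper91.PX
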